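import Mathlib
import Pool.Agent.Work.MP_44129c_co.Final

/-! MP_44129c_co: the two Ramsey numbers agree for all large m. -/

set_option autoImplicit false

namespace Pool.Agent.Results.MP_44129c_co.AllLargeM

/-- There is m₀ such that for every m ≥ m₀ and every N: every 2-colouring of the edges of K_N has a
monochromatic tree on m+1 vertices of diameter ≤ 3 iff every Z_m-colouring of the edges of K_N has
such a tree with edge colours summing to 0. -/
theorem result : ∃ m₀ : ℕ, ∀ m : ℕ, m₀ ≤ m → ∀ N : ℕ,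
    ((∀ c : Fin N → Fin N → Fin 2, (∀ x y, c x y = c y x) →
        ∃ T : SimpleGraph (Fin (m + 1)), T.IsTree ∧ T.diam ≤ 3 ∧
          ∃ f : Fin (m + 1) → Fin N, Function.Injective f ∧ ∃ i : Fin 2,
            ∀ u v : Fin (m + 1), T.Adj u v → c (f u) (f v) = i) ↔
     (∀ c : Fin N → Fin N → ZMod m, (∀ x y, c x y = c y x) →
        ∃ T : SimpleGraph (Fin (m + 1)), T.IsTree ∧ T.diam ≤ 3 ∧
          ∃ f : Fin (m + 1) → Fin N, Function.Injective f ∧
            (∑ᶠ (p : Fin (m + 1) × Fin (m + 1)) (_ : T.Adj p.1 p.2 ∧ p.1 < p.2),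
                c (f p.1) (f p.2)) = 0)) :=
  ZS44129.final

end Pool.Agent.Results.MP_44129c_co.AllLargeM
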